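import Pool.Agent.helper69.SN.SpecB

/-! Project sn (MP_d2d7b9), row xMAS: the Monge-Ampere mass is bounded by the volume of the set of slopes. -/

open scoped Pointwise ContDiff
open MeasureTheory Set Filter Topology

set_option linter.unusedVariables false

namespace Pool.Agent.helper69.SN

open Pool.Agent.helper83.SC

/-- the quadratic function. -/
noncomputable def xMAS_q {m : ℕ} (x : E m) : ℝ := 1 * ‖x‖ ^ 2 / 2

theorem xMAS_q_smooth {m : ℕ} : ContDiff ℝ ∞ (xMAS_q : E m → ℝ) := by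
  unfold xMAS_q
  exact (contDiff_const.mul (contDiff_norm_sq ℝ)).div_const 2

theorem xMAS_q_CV {m : ℕ} : CV (xMAS_q : E m → ℝ) := by
  have h1 : ConvexOn ℝ Set.univ (fun x : E m => ‖x‖ ^ 2) :=
    (convexOn_norm convex_univ).pow (fun _ _ => norm_nonneg _) 2
  have h2 := h1.smul (c := (1 / 2 : ℝ)) (by norm_num)
  have e : (xMAS_q : E m → ℝ) = fun x => (1 / 2 : ℝ) • ‖x‖ ^ 2 := by
    funext x
    unfold xMAS_q
    rw [smul_eq_mul]
    ring
  unfold CV
  rw [e]
  exact h2

theorem xMAS_q_lip {m : ℕ} (K : ℝ) (x y : E m) (hx : ‖x‖ ≤ K) (hy : ‖y‖ ≤ K) :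
    |xMAS_q x - xMAS_q y| ≤ K * ‖x - y‖ := by
  unfold xMAS_q
  have e : 1 * ‖x‖ ^ 2 / 2 - 1 * ‖y‖ ^ 2 / 2 = (‖x‖ + ‖y‖) / 2 * (‖x‖ - ‖y‖) := by ring
  rw [e, abs_mul]
  have h1 : |(‖x‖ + ‖y‖) / 2| ≤ K := by
    rw [abs_of_nonneg (by positivity)]
    linarith
  have h2 : |‖x‖ - ‖y‖| ≤ ‖x - y‖ := abs_norm_sub_norm_le x y
  have hK : 0 ≤ K := (norm_nonneg x).trans hx
  exact mul_le_mul h1 h2 (abs_nonneg _) hK

/-- the slope at an argmin is at most the Lipschitz constant. -/
theorem xMAS_slope {m : ℕ} {h : E m → ℝ} {K Λ : ℝ}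
    (hl : ∀ x y, ‖x‖ ≤ K → ‖y‖ ≤ K → |h x - h y| ≤ Λ * ‖x - y‖) {p y : E m} (hy : ‖y‖ < K)
    (ha : IsArgmin h p y) (hΛ : 0 ≤ Λ) : ‖p‖ ≤ Λ := by
  by_cases hp : p = 0
  · rw [hp, norm_zero]
    exact hΛ
  have hp' : 0 < ‖p‖ := norm_pos_iff.2 hp
  obtain ⟨t, ht, htK⟩ : ∃ t : ℝ, 0 < t ∧ ‖y‖ + t * ‖p‖ ≤ K := by
    refine ⟨(K - ‖y‖) / ‖p‖, div_pos (by linarith) hp', ?_⟩
    rw [div_mul_cancel₀ _ hp'.ne']
    linarith
  have h1 := ha (y + t • p)
  have hn : ‖y + t • p‖ ≤ K := by
    refine (norm_add_le _ _).trans ?_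
    rw [norm_smul, Real.norm_eq_abs, abs_of_pos ht]
    exact htK
  have h2 := hl (y + t • p) y hn hy.le
  have e1 : y + t • p - y = t • p := by abel
  rw [e1, norm_smul, Real.norm_eq_abs, abs_of_pos ht] at h2
  have h3 := le_of_abs_le h2
  rw [inner_add_right, inner_smul_right, real_inner_self_eq_norm_sq] at h1
  have h4 : t * ‖p‖ ^ 2 ≤ Λ * (t * ‖p‖) := by linarith
  have h5 : (t * ‖p‖) * ‖p‖ ≤ (t * ‖p‖) * Λ := by nlinarith
  exact le_of_mul_le_mul_left h5 (mul_pos ht hp')

theorem xMAS_of (hT : exists_test_stmt) (hBS : B_smooth_stmt) (hBA : B_le_A_stmt) (hN : hess_normSq_stmt)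
    (hA : hess_add_stmt) (hCH : continuous_hess_stmt) (hNN : mD_nonneg_stmt) (hPS : hess_psd_stmt) :
    xMAS_stmt := by
  intro m R L
  obtain ⟨Λ, hΛ⟩ : ∃ Λ : ℝ, Λ = m * (|L| + |R + 1|) := ⟨_, rfl⟩
  have hΛ0 : 0 ≤ Λ := by
    rw [hΛ]
    positivity
  refine ⟨(1 / (m.factorial : ℝ)) * (volume (Metric.closedBall (0 : E m) Λ)).toReal, ?_⟩
  intro f hf hlip
  have hC0 : 0 ≤ (1 / (m.factorial : ℝ)) * (volume (Metric.closedBall (0 : E m) Λ)).toReal := by positivity
  rcases lt_or_ge R 0 with hR | hR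
  · rw [Metric.closedBall_eq_empty.2 hR]
    simpa using hC0
  obtain ⟨φ, hφ, hφ1, hφR, hφs⟩ := hT (m := m) (r₁ := R + 1 / 3) (r₂ := R + 2 / 3) (by linarith) (by linarith)
  -- the family
  obtain ⟨F, hF⟩ : ∃ F : Fin m → E m → ℝ, ∀ j, F j = if (j : ℕ) = 0 then xMAS_q else fun x => f x + xMAS_q x :=
    ⟨fun j => if (j : ℕ) = 0 then xMAS_q else fun x => f x + xMAS_q x, fun _ => rfl⟩
  have hFs : ∀ j, ContDiff ℝ ∞ (F j) := by
    intro j
    rw [hF]
    split_ifs
    · exact xMAS_q_smooth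
    · exact hf.1.add xMAS_q_smooth
  have hFc : ∀ j, CV (F j) := by
    intro j
    rw [hF]
    split_ifs
    · exact xMAS_q_CV
    · exact ConvexOn.add hf.2 xMAS_q_CV
  have hq : ∀ x : E m, hess (xMAS_q : E m → ℝ) x = 1 := by
    intro x
    have h1 := hN (m := m) 1 x
    rw [one_smul] at h1
    exact h1
  have hFh : ∀ x, (fun j => hess (F j) x) = fun j : Fin m => if (j : ℕ) = 0 then (1 : Mat m) else hess f x + 1 := by
    intro x
    funext j
    rw [hF]
    split_ifs
    · exact hq x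
    · rw [hA hf.1 xMAS_q_smooth, hq]
  obtain ⟨D, hD⟩ : ∃ D : E m → ℝ, ∀ x, D x = mD (fun j : Fin m => if (j : ℕ) = 0 then (1 : Mat m) else hess f x + 1) :=
    ⟨_, fun _ => rfl⟩
  have hD' : ∀ x, D x = mD (fun j => hess (F j) x) := by
    intro x
    rw [hD, hFh]
  have hD0 : ∀ x, 0 ≤ D x := by
    intro x
    rw [hD']
    exact hNN fun j => hPS (hFs j) (hFc j) x
  have hDc : Continuous D := by
    have e : D = fun x => mD (fun j => hess (F j) x) := funext hD'
    rw [e]
    unfold mD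
    refine continuous_const.mul (continuous_finsetSum _ fun σ _ => ?_)
    apply Continuous.matrix_det
    refine continuous_matrix fun i j => ?_
    have h1 := hCH (hFs (σ i))
    exact (h1.matrix_elem i j)
  have hint : Integrable (fun x => φ x * D x) :=
    (hφ.1.continuous.mul hDc).integrable_of_hasCompactSupport hφ.2.1.mul_right
  -- the mass
  have h1 : ∫ x in Metric.closedBall (0 : E m) R, D x ≤ ∫ x, φ x * D x := by
    have h2 : ∫ x in Metric.closedBall (0 : E m) R, D x = ∫ x in Metric.closedBall (0 : E m) R, φ x * D x := by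
      refine setIntegral_congr_fun Metric.isClosed_closedBall.measurableSet ?_
      intro x hx
      have h3 : ‖x‖ < R + 1 / 3 := by
        rw [Metric.mem_closedBall, dist_zero_right] at hx
        linarith
      simp only
      rw [hφR x h3, one_mul]
    rw [h2]
    exact setIntegral_le_integral hint (Filter.Eventually.of_forall fun x => mul_nonneg (hφ.2.2 x) (hD0 x))
  have h2 : ∫ x, φ x * D x = B φ F := by
    rw [hBS hφ hFs hFc]
    refine integral_congr_ae (Filter.Eventually.of_forall fun x => ?_)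
    simp only
    rw [hD']
  have h3 := hBA hφ hFc
  -- the slopes
  have hlipF : ∀ x y : E m, ‖x‖ ≤ R + 1 → ‖y‖ ≤ R + 1 → |(∑ j, F j x) - ∑ j, F j y| ≤ Λ * ‖x - y‖ := by
    intro x y hx hy
    rw [← Finset.sum_sub_distrib]
    refine (Finset.abs_sum_le_sum_abs _ _).trans ?_
    have h4 : ∀ j ∈ (Finset.univ : Finset (Fin m)), |F j x - F j y| ≤ (|L| + |R + 1|) * ‖x - y‖ := by
      intro j _
      have hq' := xMAS_q_lip (R + 1) x y hx hy
      have hq'' : |xMAS_q x - xMAS_q y| ≤ |R + 1| * ‖x - y‖ :=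
        hq'.trans (mul_le_mul_of_nonneg_right (le_abs_self _) (norm_nonneg _))
      have hL0 : 0 ≤ |L| * ‖x - y‖ := by positivity
      rw [hF]
      split_ifs
      · linarith
      · have hf' := (hlip x y hx hy).trans (mul_le_mul_of_nonneg_right (le_abs_self L) (norm_nonneg (x - y)))
        have e : f x + xMAS_q x - (f y + xMAS_q y) = (f x - f y) + (xMAS_q x - xMAS_q y) := by ring
        simp only
        rw [e]
        refine (abs_add_le _ _).trans ?_
        linarith
    refine (Finset.sum_le_sum h4).trans ?_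
    rw [Finset.sum_const, Finset.card_univ, Fintype.card_fin, nsmul_eq_mul, hΛ]
    apply le_of_eq
    ring
  have h4 : A φ (fun x => ∑ j, F j x) ≤ (volume (Metric.closedBall (0 : E m) Λ)).toReal := by
    unfold A
    have h5 : ∫ p, (Metric.closedBall (0 : E m) Λ).indicator (fun _ => (1 : ℝ)) p =
        (volume (Metric.closedBall (0 : E m) Λ)).toReal := by
      rw [integral_indicator Metric.isClosed_closedBall.measurableSet, setIntegral_const, smul_eq_mul, mul_one]
      rfl
    rw [← h5]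
    refine integral_mono_of_nonneg (Filter.Eventually.of_forall fun p => ?_) ?_ (Filter.Eventually.of_forall fun p => ?_)
    · simp only [Pi.zero_apply]
      unfold sel
      refine Real.sSup_nonneg ?_
      rintro _ ⟨y, _, rfl⟩
      exact hφ.2.2 y
    · refine (integrable_indicator_iff Metric.isClosed_closedBall.measurableSet).2 ?_
      exact integrableOn_const (by exact (isCompact_closedBall (0 : E m) Λ).measure_lt_top.ne) (by simp)
    · unfold sel
      by_cases hp : p ∈ Metric.closedBall (0 : E m) Λ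
      · rw [Set.indicator_of_mem hp]
        refine Real.sSup_le ?_ zero_le_one
        rintro _ ⟨y, _, rfl⟩
        exact hφ1 y
      · rw [Set.indicator_of_notMem hp]
        refine Real.sSup_le ?_ le_rfl
        rintro _ ⟨y, hy, rfl⟩
        by_contra hpos
        push Not at hpos
        have h6 : y ∈ tsupport φ := subset_tsupport _ (Function.mem_support.2 hpos.ne')
        have h7 := hφs h6
        rw [Metric.mem_ball, dist_zero_right] at h7
        apply hp
        rw [Metric.mem_closedBall, dist_zero_right]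
        exact xMAS_slope hlipF (by linarith) hy hΛ0
  have hfac : (0 : ℝ) < (m.factorial : ℝ) := by exact_mod_cast m.factorial_pos
  have h5 : ∫ x in Metric.closedBall (0 : E m) R, D x ≤
      (1 / (m.factorial : ℝ)) * (volume (Metric.closedBall (0 : E m) Λ)).toReal := by
    rw [one_div, inv_mul_eq_div, le_div_iff₀ hfac]
    rw [h2] at h1
    have h6 := mul_le_mul_of_nonneg_left h1 hfac.le
    linarith
  calc _ = ∫ x in Metric.closedBall (0 : E m) R, D x := by
        refine integral_congr_ae (Filter.Eventually.of_forall fun x => ?_)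
        simp only
        rw [hD]
    _ ≤ _ := h5

end Pool.Agent.helper69.SN
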